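import Pool.Agent.T9h7.RE.Spec3

/-!
# Shortest sequences of narrow configurations joined by segments
-/

set_option autoImplicit false

namespace Pool.Agent.T9h79.RE

open Finset Pool.Agent.T9h7.RD Pool.Agent.T9h7.RE

/-- a sequence of narrow configurations joined by segments, from `A` to a configuration with the
empty clause -/
def Ch {n : ℕ} (F : Finset (Finset (Fin n × Bool))) (s w Λ : ℕ)
    (A : Finset (Finset (Fin n × Bool))) (T : ℕ)
    (M' : ℕ → Finset (Finset (Fin n × Bool))) : Prop :=
  M' 0 = A ∧ (∅ : Finset (Fin n × Bool)) ∈ M' T ∧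
    (∀ t < T, Seg F s Λ (M' t) (M' (t + 1))) ∧
    (∀ t ≤ T, ∑ C ∈ M' t, C.card ≤ s) ∧ (∀ t ≤ T, ∀ C ∈ M' t, C.card ≤ w)

theorem Ch.cons {n : ℕ} {F : Finset (Finset (Fin n × Bool))} {s w Λ : ℕ}
    {A B : Finset (Finset (Fin n × Bool))} {T : ℕ} {M' : ℕ → Finset (Finset (Fin n × Bool))}
    (h : Ch F s w Λ B T M') (hs : ∑ C ∈ A, C.card ≤ s) (hw : ∀ C ∈ A, C.card ≤ w)
    (hAB : Seg F s Λ A B) : Ch F s w Λ A (T + 1) (fun t => if t = 0 then A else M' (t - 1)) := by
  obtain ⟨h0, h1, h2, h3, h4⟩ := h
  have e : ∀ t, 0 < t → (if t = 0 then A else M' (t - 1)) = M' (t - 1) := fun t ht =>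
    if_neg (by omega)
  refine ⟨if_pos rfl, ?_, ?_, ?_, ?_⟩
  · show ∅ ∈ (if T + 1 = 0 then A else M' (T + 1 - 1))
    rw [e (T + 1) (by omega)]
    exact h1
  · intro t ht
    show Seg F s Λ (if t = 0 then A else M' (t - 1)) (if t + 1 = 0 then A else M' (t + 1 - 1))
    rw [e (t + 1) (by omega)]
    rcases Nat.eq_zero_or_pos t with rfl | hpos
    · rw [if_pos rfl]
      have : M' (0 + 1 - 1) = B := h0
      rw [this]
      exact hAB
    · rw [e t hpos]
      have h5 := h2 (t - 1) (by omega)
      have h6 : t + 1 - 1 = t - 1 + 1 := by omega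
      rw [h6]
      exact h5
  · intro t ht
    show ∑ C ∈ (if t = 0 then A else M' (t - 1)), C.card ≤ s
    rcases Nat.eq_zero_or_pos t with rfl | hpos
    · rw [if_pos rfl]
      exact hs
    · rw [e t hpos]
      exact h3 (t - 1) (by omega)
  · intro t ht
    show ∀ C ∈ (if t = 0 then A else M' (t - 1)), C.card ≤ w
    rcases Nat.eq_zero_or_pos t with rfl | hpos
    · rw [if_pos rfl]
      exact hw
    · rw [e t hpos]
      exact h4 (t - 1) (by omega)

theorem exists_ch {n : ℕ} {F : Finset (Finset (Fin n × Bool))} {s w Λ τ : ℕ}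
    {M : ℕ → Finset (Finset (Fin n × Bool))} (hM : IsRef F τ M)
    (hs : ∀ t ≤ τ, ∑ C ∈ M t, C.card ≤ s)
    (hw : ∀ t, t + Λ ≤ τ → ∃ u, t ≤ u ∧ u ≤ t + Λ ∧ ∀ C ∈ M u, C.card ≤ w) :
    ∀ k t : ℕ, τ - t = k → t ≤ τ → (∀ C ∈ M t, C.card ≤ w) →
      ∃ (T : ℕ) (M' : ℕ → Finset (Finset (Fin n × Bool))), Ch F s w Λ (M t) T M' := by
  intro k
  induction k using Nat.strong_induction_on with
  | _ k ih =>
    intro t htk ht hnar
    by_cases h : t + 1 + Λ ≤ τ
    · obtain ⟨u, hu1, hu2, hu3⟩ := hw (t + 1) h
      obtain ⟨T, M', hch⟩ := ih (τ - u) (by omega) u rfl (by omega) hu3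
      refine ⟨_, _, hch.cons (hs t ht) hnar ⟨u - t, by omega, fun i => M (t + i), rfl, ?_,
        fun i hi => hs _ (by omega), fun i hi => hM.2.2 (t + i) (by omega)⟩⟩
      show M (t + (u - t)) = M u
      congr 1
      omega
    · have hch : Ch F s w Λ {∅} 0 (fun _ => {∅}) :=
        ⟨rfl, Finset.mem_singleton_self _, fun t ht => absurd ht (Nat.not_lt_zero t),
          fun t _ => by simp, fun t _ C hC => by
            rw [Finset.mem_singleton.1 hC]
            simp⟩
      refine ⟨_, _, hch.cons (hs t ht) hnar ⟨τ - t + 1, by omega,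
        fun i => if i ≤ τ - t then M (t + i) else {∅}, ?_, ?_, ?_, ?_⟩⟩
      · show (if 0 ≤ τ - t then M (t + 0) else {∅}) = M t
        rw [if_pos (Nat.zero_le _), Nat.add_zero]
      · show (if τ - t + 1 ≤ τ - t then M (t + (τ - t + 1)) else {∅}) = {∅}
        rw [if_neg (by omega)]
      · intro i hi
        show ∑ C ∈ (if i ≤ τ - t then M (t + i) else {∅}), C.card ≤ s
        by_cases h1 : i ≤ τ - t
        · rw [if_pos h1]
          exact hs _ (by omega)
        · rw [if_neg h1]
          simp
      · intro i hi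
        show Stp F (if i ≤ τ - t then M (t + i) else {∅})
          (if i + 1 ≤ τ - t then M (t + (i + 1)) else {∅})
        rw [if_pos (show i ≤ τ - t by omega)]
        by_cases h1 : i + 1 ≤ τ - t
        · rw [if_pos h1]
          exact hM.2.2 (t + i) (by omega)
        · rw [if_neg h1]
          have h2 : t + i = τ := by omega
          rw [h2]
          exact Or.inr (Or.inr (Finset.singleton_subset_iff.2 hM.2.1))

theorem sPath : SPath := by
  classical
  intro n F s w Λ τ M hM hs hw
  let P : ℕ → Prop := fun T => ∃ M' : ℕ → Finset (Finset (Fin n × Bool)), Ch F s w Λ ∅ T M'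
  have hP : ∃ T, P T := by
    obtain ⟨T, M', h⟩ := exists_ch hM hs hw τ 0 (by omega) (Nat.zero_le _)
      (by rw [hM.1]; intro C hC; exact absurd hC (Finset.notMem_empty C))
    rw [hM.1] at h
    exact ⟨T, M', h⟩
  set T := Nat.find hP with hT
  obtain ⟨M', h0, h1, hseg, hs', hw'⟩ : P T := Nat.find_spec hP
  have hmin : ∀ m, m < T → ¬ P m := fun m hm => Nat.find_min hP hm
  have key : ∀ i j, i < j → j ≤ T → M' i ≠ M' j := by
    intro i j hij hj heq
    refine hmin (T - (j - i)) (by omega)
      ⟨fun t => if t ≤ i then M' t else M' (t + (j - i)), ?_, ?_, ?_, ?_, ?_⟩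
    · simp only [Nat.zero_le, if_true]
      exact h0
    · show ∅ ∈ (if T - (j - i) ≤ i then M' (T - (j - i)) else M' (T - (j - i) + (j - i)))
      by_cases h : T - (j - i) ≤ i
      · rw [if_pos h]
        have h1' : T - (j - i) = i := by omega
        have h2 : T = j := by omega
        rw [h1', heq, ← h2]
        exact h1
      · rw [if_neg h]
        have h1' : T - (j - i) + (j - i) = T := by omega
        rw [h1']
        exact h1
    · intro t ht
      rcases lt_trichotomy t i with h | h | h
      · have h1 : (if t ≤ i then M' t else M' (t + (j - i))) = M' t := if_pos h.le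
        have h2 : (if t + 1 ≤ i then M' (t + 1) else M' (t + 1 + (j - i))) = M' (t + 1) :=
          if_pos (by omega)
        simp only [h1, h2]
        exact hseg t (by omega)
      · subst h
        have h1 : (if t ≤ t then M' t else M' (t + (j - t))) = M' j := by
          rw [if_pos le_rfl, heq]
        have h2 : (if t + 1 ≤ t then M' (t + 1) else M' (t + 1 + (j - t))) = M' (j + 1) := by
          rw [if_neg (by omega)]
          congr 1
          omega
        simp only [h1, h2]
        exact hseg j (by omega)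
      · have h1 : (if t ≤ i then M' t else M' (t + (j - i))) = M' (t + (j - i)) :=
          if_neg (by omega)
        have h2 : (if t + 1 ≤ i then M' (t + 1) else M' (t + 1 + (j - i))) =
            M' (t + (j - i) + 1) := by
          rw [if_neg (by omega)]
          congr 1
          omega
        simp only [h1, h2]
        exact hseg (t + (j - i)) (by omega)
    · intro t ht
      show ∑ C ∈ (if t ≤ i then M' t else M' (t + (j - i))), C.card ≤ s
      by_cases h : t ≤ i
      · rw [if_pos h]
        exact hs' t (by omega)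
      · rw [if_neg h]
        exact hs' _ (by omega)
    · intro t ht
      show ∀ C ∈ (if t ≤ i then M' t else M' (t + (j - i))), C.card ≤ w
      by_cases h : t ≤ i
      · rw [if_pos h]
        exact hw' t (by omega)
      · rw [if_neg h]
        exact hw' _ (by omega)
  refine ⟨T, M', h0, h1, hseg, hs', hw', ?_, ?_⟩
  · intro i hi j hj heq
    rcases lt_trichotomy i j with h | h | h
    · exact absurd heq (key i j h hj)
    · exact h
    · exact absurd heq.symm (key j i h hi)
  · intro t ht he
    exact hmin t ht ⟨M', h0, he, fun u hu => hseg u (by omega),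
      fun u hu => hs' u (by omega), fun u hu => hw' u (by omega)⟩

end Pool.Agent.T9h79.RE
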